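import Mathlib

/-!
# MP_a59f64_al : a preimage of `x₁` under an injective endomorphism need not be a coordinate

For every field `K` of characteristic `0` and every `n ≥ 3`, the polynomial
`p = x y - z²` is not a coordinate polynomial of `K[x, y, z, …]`, but the endomorphism

`x ↦ x + y²`, `y ↦ 1 + 2 y z + (x + y²) z²`, `z ↦ y + (x + y²) z`

(the other variables being fixed) is injective and sends `p` to `x`.
-/

namespace Pool.Agent.Results.MP_a59f64_al.InjectivePreimage

open MvPolynomial

variable {K : Type} [Field K]

/-- `p` is a coordinate polynomial of `K[x₁, …, x_n]`: there are `q₁ = p, q₂, …, q_n` which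
generate the polynomial ring as a `K`-algebra. -/
def IsCoordinate {n : ℕ} (p : MvPolynomial (Fin (n + 1)) K) : Prop :=
  ∃ q : Fin (n + 1) → MvPolynomial (Fin (n + 1)) K, q 0 = p ∧
    Algebra.adjoin K (Set.range q) = ⊤

/-- The linear part at the origin. -/
noncomputable def lin {n : ℕ} : MvPolynomial (Fin (n + 1)) K →ₗ[K] (Fin (n + 1) → K) where
  toFun f := fun k => eval 0 (pderiv k f)
  map_add' f g := by
    ext k
    simp
  map_smul' c f := by
    ext k
    simp

theorem lin_mul {n : ℕ} (f g : MvPolynomial (Fin (n + 1)) K) :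
    lin (f * g) = eval 0 f • lin g + eval 0 g • lin f := by
  ext k
  simp only [lin, LinearMap.coe_mk, AddHom.coe_mk, Pi.add_apply, Pi.smul_apply, smul_eq_mul]
  rw [Derivation.leibniz]
  simp [smul_eq_mul]

theorem lin_X {n : ℕ} (i : Fin (n + 1)) : lin (X i : MvPolynomial (Fin (n + 1)) K) =
    Pi.single i 1 := by
  ext k
  simp only [lin, LinearMap.coe_mk, AddHom.coe_mk, pderiv_X]
  by_cases h : i = k
  · subst h; simp
  · rw [Pi.single_eq_of_ne h, Pi.single_eq_of_ne (Ne.symm h)]; simp

/-- A polynomial with vanishing linear part is not a coordinate polynomial. -/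
theorem not_coordinate {n : ℕ} (p : MvPolynomial (Fin (n + 1)) K) (hp : lin p = 0) :
    ¬ IsCoordinate p := by
  rintro ⟨q, hq, hgen⟩
  classical
  let S : Finset (Fin (n + 1) → K) := (Finset.univ.erase (0 : Fin (n + 1))).image fun i => lin (q i)
  have key : ∀ f : MvPolynomial (Fin (n + 1)) K, lin f ∈ Submodule.span K (S : Set (Fin (n + 1) → K)) := by
    intro f
    have hf : f ∈ Algebra.adjoin K (Set.range q) := by rw [hgen]; trivial
    induction hf using Algebra.adjoin_induction with
    | mem x hx =>
      obtain ⟨i, rfl⟩ := hx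
      by_cases hi : i = 0
      · rw [hi, hq, hp]; exact zero_mem _
      · apply Submodule.subset_span
        simp only [S, Finset.coe_image, Set.mem_image, Finset.mem_coe, Finset.mem_erase]
        exact ⟨i, ⟨hi, Finset.mem_univ _⟩, rfl⟩
    | algebraMap r =>
      have : lin (algebraMap K (MvPolynomial (Fin (n + 1)) K) r) = 0 := by
        ext k
        simp [lin, algebraMap_eq]
      rw [this]; exact zero_mem _
    | add x y _ _ hx hy => rw [map_add]; exact add_mem hx hy
    | mul x y _ _ hx hy =>
      rw [lin_mul]
      exact add_mem (Submodule.smul_mem _ _ hy) (Submodule.smul_mem _ _ hx)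
  have htop : Submodule.span K (S : Set (Fin (n + 1) → K)) = ⊤ := by
    rw [eq_top_iff]
    intro v _
    have hv : v = ∑ i, v i • (Pi.single i (1 : K) : Fin (n + 1) → K) := by
      ext k
      simp [Finset.sum_apply, Pi.single_apply]
    rw [hv]
    apply Submodule.sum_mem
    intro i _
    apply Submodule.smul_mem
    rw [← lin_X]
    exact key _
  have h1 : Module.finrank K (Submodule.span K (S : Set (Fin (n + 1) → K))) ≤ S.card :=
    finrank_span_finset_le_card S
  rw [htop, finrank_top, Module.finrank_fin_fun] at h1
  have h2 : S.card ≤ (Finset.univ.erase (0 : Fin (n + 1))).card := Finset.card_image_le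
  rw [Finset.card_erase_of_mem (Finset.mem_univ _), Finset.card_univ, Fintype.card_fin] at h2
  omega

/-- The images of the variables under the endomorphism. -/
noncomputable def img (m : ℕ) (i : Fin (m + 3)) : MvPolynomial (Fin (m + 3)) K :=
  if i = 0 then X 0 + X 1 ^ 2
  else if i = 1 then 1 + 2 * X 1 * X 2 + (X 0 + X 1 ^ 2) * X 2 ^ 2
  else if i = 2 then X 1 + (X 0 + X 1 ^ 2) * X 2
  else X i

/-- The endomorphism. -/
noncomputable def phi (m : ℕ) : MvPolynomial (Fin (m + 3)) K →ₐ[K] MvPolynomial (Fin (m + 3)) K :=
  aeval (img m)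

/-- The polynomial `x y - z²`. -/
noncomputable def poly (m : ℕ) : MvPolynomial (Fin (m + 3)) K := X 0 * X 1 - X 2 ^ 2

theorem ne10 (m : ℕ) : (1 : Fin (m + 3)) ≠ 0 := by
  intro h
  have := congrArg Fin.val h
  simp at this

theorem ne20 (m : ℕ) : (2 : Fin (m + 3)) ≠ 0 := by
  intro h
  have h2 := congrArg Fin.val h
  have e2 : ((2 : Fin (m + 3)) : ℕ) = 2 := by
    show 2 % (m + 3) = 2
    exact Nat.mod_eq_of_lt (by omega)
  rw [e2] at h2
  simp at h2

theorem ne21 (m : ℕ) : (2 : Fin (m + 3)) ≠ 1 := by
  intro h
  have h2 := congrArg Fin.val h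
  have e2 : ((2 : Fin (m + 3)) : ℕ) = 2 := by
    show 2 % (m + 3) = 2
    exact Nat.mod_eq_of_lt (by omega)
  have e1 : ((1 : Fin (m + 3)) : ℕ) = 1 := by
    show 1 % (m + 3) = 1
    exact Nat.mod_eq_of_lt (by omega)
  rw [e2, e1] at h2
  simp at h2

theorem img0 (m : ℕ) : (img m 0 : MvPolynomial (Fin (m + 3)) K) = X 0 + X 1 ^ 2 := by
  simp [img]

theorem img1 (m : ℕ) : (img m 1 : MvPolynomial (Fin (m + 3)) K) =
    1 + 2 * X 1 * X 2 + (X 0 + X 1 ^ 2) * X 2 ^ 2 := by
  unfold img
  rw [if_neg (ne10 m), if_pos rfl]

theorem img2 (m : ℕ) : (img m 2 : MvPolynomial (Fin (m + 3)) K) =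
    X 1 + (X 0 + X 1 ^ 2) * X 2 := by
  unfold img
  rw [if_neg (ne20 m), if_neg (ne21 m), if_pos rfl]

theorem phi_poly (m : ℕ) : phi m (poly m : MvPolynomial (Fin (m + 3)) K) = X 0 := by
  unfold phi poly
  rw [map_sub, map_mul, map_pow, aeval_X, aeval_X, aeval_X, img0, img1, img2]
  ring

theorem lin_poly (m : ℕ) : lin (poly m : MvPolynomial (Fin (m + 3)) K) = 0 := by
  unfold poly
  rw [map_sub, pow_two, lin_mul, lin_mul]
  simp

theorem phi_injective (m : ℕ) [CharZero K] :
    Function.Injective (phi m : MvPolynomial (Fin (m + 3)) K →ₐ[K] MvPolynomial (Fin (m + 3)) K) := by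
  have hinf : Infinite K := inferInstance
  rw [injective_iff_map_eq_zero]
  intro f hf
  -- vanishing at all points of the image
  have h1 : ∀ (v : Fin (m + 3) → K) (w : K), v 0 ≠ 0 →
      eval (Function.update v 1 (1 + (v 2 ^ 2 - w ^ 2) / v 0)) f = 0 := by
    intro v w hv
    let pt : Fin (m + 3) → K := Function.update (Function.update (Function.update v 0 (v 0 - w ^ 2)) 1 w) 2 ((v 2 - w) / v 0)
    have hpt0 : pt 0 = v 0 - w ^ 2 := by
      simp only [pt]
      rw [Function.update_of_ne (ne20 m).symm, Function.update_of_ne (ne10 m).symm,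
        Function.update_self]
    have hpt1 : pt 1 = w := by
      simp only [pt]
      rw [Function.update_of_ne (ne21 m).symm, Function.update_self]
    have hpt2 : pt 2 = (v 2 - w) / v 0 := by
      simp only [pt]
      rw [Function.update_self]
    have e : eval pt (phi m f) = eval (Function.update v 1 (1 + (v 2 ^ 2 - w ^ 2) / v 0)) f := by
      unfold phi
      rw [← coe_aeval_eq_eval, ← coe_aeval_eq_eval]
      change (aeval pt) ((aeval (img m)) f) =
        (aeval (Function.update v 1 (1 + (v 2 ^ 2 - w ^ 2) / v 0))) f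
      rw [← AlgHom.comp_apply, comp_aeval]
      congr 2
      funext i
      by_cases h0 : i = 0
      · subst h0
        rw [img0, Function.update_of_ne (ne10 m).symm]
        simp [hpt0, hpt1]
      by_cases h1 : i = 1
      · subst h1
        rw [img1, Function.update_self]
        simp only [map_add, map_mul, map_one, map_pow, aeval_X, hpt0, hpt1, hpt2, map_ofNat]
        field_simp
        ring
      by_cases h2 : i = 2
      · subst h2
        rw [img2, Function.update_of_ne (ne21 m)]
        simp only [map_add, map_mul, map_pow, aeval_X, hpt0, hpt1, hpt2]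
        field_simp
        ring
      · unfold img
        rw [if_neg h0, if_neg h1, if_neg h2, Function.update_of_ne h1, aeval_X]
        simp only [pt]
        rw [Function.update_of_ne h2, Function.update_of_ne h1, Function.update_of_ne h0]
    rw [← e, hf, map_zero]
  -- vanishing at all points with nonzero first coordinate
  have h2 : ∀ v : Fin (m + 3) → K, v 0 ≠ 0 → eval v f = 0 := by
    intro v hv
    let g : Polynomial K := aeval (Function.update (fun i => Polynomial.C (v i)) 1 Polynomial.X) f
    have hg : ∀ y : K, g.eval y = eval (Function.update v 1 y) f := by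
      intro y
      rw [← coe_aeval_eq_eval]
      change (Polynomial.eval y) ((aeval (Function.update (fun i => Polynomial.C (v i)) 1 Polynomial.X)) f) = _
      rw [← Polynomial.coe_aeval_eq_eval]
      change (Polynomial.aeval y) ((aeval (Function.update (fun i => Polynomial.C (v i)) 1 Polynomial.X)) f) = (aeval (Function.update v 1 y)) f
      rw [← AlgHom.comp_apply, comp_aeval]
      congr 2
      funext i
      by_cases h1 : i = 1
      · subst h1
        rw [Function.update_self, Function.update_self, Polynomial.aeval_X]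
      · rw [Function.update_of_ne h1, Function.update_of_ne h1, Polynomial.aeval_C]
        rfl
    have hg0 : g = 0 := by
      apply Polynomial.eq_zero_of_infinite_isRoot
      have hinj : Function.Injective fun k : ℕ => (1 + (v 2 ^ 2 - (k : K) ^ 2) / v 0) := by
        intro a b hab
        have h3 : ((a : K)) ^ 2 = (b : K) ^ 2 := by
          have h4 : (v 2 ^ 2 - (a : K) ^ 2) / v 0 = (v 2 ^ 2 - (b : K) ^ 2) / v 0 := by
            simpa using hab
          rw [div_left_inj' hv] at h4
          linear_combination -h4
        have h5 : a ^ 2 = b ^ 2 := by exact_mod_cast h3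
        exact Nat.pow_left_injective (n := 2) (by norm_num) h5
      refine (Set.infinite_range_of_injective hinj).mono ?_
      rintro _ ⟨k, rfl⟩
      show g.IsRoot _
      rw [Polynomial.IsRoot.def, hg]
      exact h1 v k hv
    have := hg (v 1)
    rw [hg0, Function.update_eq_self] at this
    rw [← this]; simp
  have h3 : (X 0 : MvPolynomial (Fin (m + 3)) K) * f = 0 := by
    apply MvPolynomial.funext
    intro v
    rw [map_mul, eval_X, map_zero]
    by_cases hv : v 0 = 0
    · rw [hv, zero_mul]
    · rw [h2 v hv, mul_zero]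
  rcases mul_eq_zero.1 h3 with h | h
  · exact absurd h (X_ne_zero 0)
  · exact h

/-- **Disproof.** For every field `K` of characteristic `0` and every `n ≥ 3` (here the number of
variables is `m + 3`) there are a polynomial `p` that is not a coordinate polynomial and an
injective `K`-algebra endomorphism `φ` with `φ(p) = x₁`. (The polynomial is `x y - z²`.) -/
theorem result (K : Type) [Field K] [CharZero K] (m : ℕ) :
    ∃ (φ : MvPolynomial (Fin (m + 3)) K →ₐ[K] MvPolynomial (Fin (m + 3)) K)
      (p : MvPolynomial (Fin (m + 3)) K),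
      p = X 0 * X 1 - X 2 ^ 2 ∧ Function.Injective φ ∧ φ p = X 0 ∧ ¬ IsCoordinate p :=
  ⟨phi m, poly m, rfl, phi_injective m, phi_poly m, not_coordinate _ (lin_poly m)⟩

end Pool.Agent.Results.MP_a59f64_al.InjectivePreimage
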